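import Pool.Agent.Lib.MP_972ec5_co.NE.Conn

/-! No unbounded expanding family when `2b ≤ 3c + 3`. -/

namespace Pool.Agent.Variants.MP_972ec5_co.DenseEdgeLinks

open Pool.Agent.Lib.MP_972ec5_co Pool.Agent.Lib.MP_972ec5_co.NE

theorem result (a b c : ℕ) (h : 2 * b ≤ 3 * c + 3) :
    ∃ n : ℕ, ∀ ε : ℝ, 0 < ε → ∀ (V : Type) [Finite V] (G : SimpleGraph V),
      Good G a b c ε → Nat.card V ≤ n := by
  refine ⟨(a + 1) ^ a, fun ε hε V _ G hG => ?_⟩
  let _ := Fintype.ofFinite V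
  have hc := conn G hG.1.1 hε hG.1.2
  have hA := ca_of hG.1.1
  exact card_le hc hA
    (dist_le_a hc hA (cb_of hG) (cc_of hG) (hp_of_link hε hG h) (by omega))

end Pool.Agent.Variants.MP_972ec5_co.DenseEdgeLinks
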