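import Pool.Agent.Lib.MP_972ec5_co.NE.Conn

/-! No unbounded expanding family when `a ≤ 2b + 1` and `2a + 2c ≤ 5b + 1`. -/

namespace Pool.Agent.Variants.MP_972ec5_co.DenseVertexLinks

open Pool.Agent.Lib.MP_972ec5_co Pool.Agent.Lib.MP_972ec5_co.NE

theorem result (a b c : ℕ) (h1 : a ≤ 2 * b + 1) (h2 : 2 * a + 2 * c ≤ 5 * b + 1) :
    ∃ n : ℕ, ∀ ε : ℝ, 0 < ε → ∀ (V : Type) [Finite V] (G : SimpleGraph V),
      Good G a b c ε → Nat.card V ≤ n := by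
  refine ⟨(a + 1) ^ 4, fun ε hε V _ G hG => ?_⟩
  let _ := Fintype.ofFinite V
  have hc := conn G hG.1.1 hε hG.1.2
  have hA := ca_of hG.1.1
  exact card_le hc hA
    (dist_le4 hc hA (cb_of hG) (cc_of hG) (hp_of_le hA (cb_of hG) h1) h2)

end Pool.Agent.Variants.MP_972ec5_co.DenseVertexLinks
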